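import Pool.Agent.H308R2.ZS.Stubs

set_option autoImplicit false

open scoped ComplexConjugate Kronecker Matrix.Norms.L2Operator

namespace Pool.Agent.H308R2.ZS.T_CEN

open Pool.Agent.H923R2.FP Pool.Agent.H923R2.FZ Pool.Agent.H308R2.ZS

theorem a_eq (n : ℕ) (s : ℝ) : star (V0 n s) * V0 n s =
    Matrix.diagonal (fun p : Ix n => if p.2 = Fin.last (n + 1) then ((s ^ 2 : ℝ) : ℂ) else 0) := by
  ext p q
  rw [Matrix.mul_apply]
  by_cases hp : p.2 = Fin.last (n + 1)
  · rw [Finset.sum_eq_single ((0 : Fin (n + 1)), p.1.castSucc)]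
    · by_cases hq : p = q
      · subst hq
        simp [Matrix.star_apply, V0, hp, Complex.ofReal_pow, sq]
      · rw [Matrix.diagonal_apply_ne _ hq]
        have h1 : ¬ (q.2 = Fin.last (n + 1) ∧ p.1 = q.1) := by
          rintro ⟨h2, h3⟩
          exact hq (Prod.ext h3 (hp.trans h2.symm))
        have h4 : V0 n s (0, p.1.castSucc) q = 0 := by
          simp only [V0, Matrix.of_apply, true_and]
          rw [if_neg]
          rintro ⟨h2, h3⟩
          exact h1 ⟨h2, Fin.castSucc_injective _ h3⟩
        rw [h4, mul_zero]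
    · intro r _ hr
      have h4 : V0 n s r p = 0 := by
        simp only [V0, Matrix.of_apply]
        rw [if_neg]
        rintro ⟨h2, _, h3⟩
        exact hr (Prod.ext h2 h3)
      rw [Matrix.star_apply, h4, star_zero, zero_mul]
    · intro h; exact absurd (Finset.mem_univ _) h
  · rw [Finset.sum_eq_zero]
    · by_cases hq : p = q
      · subst hq
        simp [hp]
      · rw [Matrix.diagonal_apply_ne _ hq]
    · intro r _
      have h4 : V0 n s r p = 0 := by
        simp only [V0, Matrix.of_apply]
        rw [if_neg]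
        rintro ⟨_, h2, _⟩
        exact hp h2
      rw [Matrix.star_apply, h4, star_zero, zero_mul]

theorem b_eq (n : ℕ) (s : ℝ) : V0 n s * star (V0 n s) =
    Matrix.diagonal (fun p : Ix n =>
      if p.1 = 0 ∧ p.2 ≠ Fin.last (n + 1) then ((s ^ 2 : ℝ) : ℂ) else 0) := by
  ext p q
  rw [Matrix.mul_apply]
  by_cases hp : p.1 = 0 ∧ p.2 ≠ Fin.last (n + 1)
  · obtain ⟨k, hk⟩ := Fin.exists_castSucc_eq.2 hp.2
    rw [Finset.sum_eq_single (k, Fin.last (n + 1))]
    · have h5 : V0 n s p (k, Fin.last (n + 1)) = s := by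
        simp only [V0, Matrix.of_apply]
        rw [if_pos ⟨hp.1, trivial, hk.symm⟩]
      by_cases hq : p = q
      · subst hq
        rw [Matrix.diagonal_apply_eq, if_pos hp, Matrix.star_apply, h5]
        simp [sq]
      · rw [Matrix.diagonal_apply_ne _ hq]
        have h4 : V0 n s q (k, Fin.last (n + 1)) = 0 := by
          simp only [V0, Matrix.of_apply]
          rw [if_neg]
          rintro ⟨h2, _, h3⟩
          exact hq (Prod.ext (hp.1.trans h2.symm) (hk.symm.trans h3.symm))
        rw [Matrix.star_apply, h4, star_zero, mul_zero]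
    · intro r _ hr
      have h4 : V0 n s p r = 0 := by
        simp only [V0, Matrix.of_apply]
        rw [if_neg]
        rintro ⟨_, h2, h3⟩
        refine hr (Prod.ext ?_ h2)
        exact Fin.castSucc_injective _ (h3.symm.trans hk.symm)
      rw [h4, zero_mul]
    · intro h; exact absurd (Finset.mem_univ _) h
  · rw [Finset.sum_eq_zero]
    · by_cases hq : p = q
      · subst hq
        rw [Matrix.diagonal_apply_eq, if_neg hp]
      · rw [Matrix.diagonal_apply_ne _ hq]
    · intro r _
      have h4 : V0 n s p r = 0 := by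
        simp only [V0, Matrix.of_apply]
        rw [if_neg]
        rintro ⟨h1, _, h3⟩
        refine hp ⟨h1, ?_⟩
        rw [h3]
        exact (Fin.castSucc_lt_last _).ne
      rw [h4, zero_mul]

theorem c_eq (n : ℕ) (i : Fin (n + 1)) (c s : ℝ) : D0 n i 0 c * (V0 n s * star (V0 n s)) *
    D0 n 0 i c = Matrix.diagonal (fun p : Ix n =>
      if p.1 = i ∧ p.2 ≠ Fin.last (n + 1) then ((s ^ 2 : ℝ) : ℂ) else 0) := by
  rw [b_eq]
  ext p q
  rw [Matrix.mul_apply]
  simp only [Matrix.mul_diagonal]
  by_cases hp : p.1 = i ∧ p.2 ≠ Fin.last (n + 1)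
  · rw [Finset.sum_eq_single ((0 : Fin (n + 1)), p.2)]
    · have h5 : D0 n i 0 c p (0, p.2) = 1 := by
        simp only [D0, Matrix.of_apply]
        rw [if_pos ⟨hp.1, trivial, trivial⟩, if_neg hp.2]
      rw [h5, if_pos ⟨rfl, hp.2⟩, one_mul]
      by_cases hq : p = q
      · subst hq
        rw [Matrix.diagonal_apply_eq, if_pos hp]
        have h6 : D0 n 0 i c (0, p.2) p = 1 := by
          simp only [D0, Matrix.of_apply]
          rw [if_pos ⟨trivial, hp.1, trivial⟩, if_neg hp.2]
        rw [h6, mul_one]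
      · rw [Matrix.diagonal_apply_ne _ hq]
        have h6 : D0 n 0 i c (0, p.2) q = 0 := by
          simp only [D0, Matrix.of_apply]
          rw [if_neg]
          rintro ⟨_, h2, h3⟩
          exact hq (Prod.ext (hp.1.trans h2.symm) h3)
        rw [h6, mul_zero]
    · intro r _ hr
      have h4 : D0 n i 0 c p r = 0 := by
        simp only [D0, Matrix.of_apply]
        rw [if_neg]
        rintro ⟨_, h2, h3⟩
        exact hr (Prod.ext h2 h3.symm)
      rw [h4, zero_mul, zero_mul]
    · intro h; exact absurd (Finset.mem_univ _) h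
  · rw [Finset.sum_eq_zero]
    · by_cases hq : p = q
      · subst hq
        rw [Matrix.diagonal_apply_eq, if_neg hp]
      · rw [Matrix.diagonal_apply_ne _ hq]
    · intro r _
      by_cases hr : r.1 = 0 ∧ r.2 ≠ Fin.last (n + 1)
      · have h4 : D0 n i 0 c p r = 0 := by
          simp only [D0, Matrix.of_apply]
          rw [if_neg]
          rintro ⟨h1, _, h3⟩
          exact hp ⟨h1, by rw [h3]; exact hr.2⟩
        rw [h4, zero_mul, zero_mul]
      · rw [if_neg hr, mul_zero, zero_mul]

theorem sum_eq (n : ℕ) (c s : ℝ) : star (V0 n s) * V0 n s +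
    ∑ i, D0 n i 0 c * (V0 n s * star (V0 n s)) * D0 n 0 i c = ((s ^ 2 : ℝ) : ℂ) • (1 : MM n) := by
  rw [a_eq, Finset.sum_congr rfl fun i _ => c_eq n i c s]
  ext p q
  rw [Matrix.add_apply, Matrix.sum_apply]
  by_cases hq : p = q
  · subst hq
    simp only [Matrix.diagonal_apply_eq]
    rw [Finset.sum_eq_single p.1]
    · by_cases hp : p.2 = Fin.last (n + 1)
      · simp [hp]
      · simp [hp]
    · intro j _ hj
      rw [if_neg]
      rintro ⟨h1, _⟩
      exact hj h1.symm
    · intro h; exact absurd (Finset.mem_univ _) h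
  · simp only [Matrix.diagonal_apply_ne _ hq]
    simp [Matrix.one_apply_ne hq]

theorem t_CEN (hWU : S_WU) : S_CEN := by
  intro n φ k v hV t
  obtain ⟨-, -, -, -, -, -, -, hW⟩ := hWU n
  obtain ⟨hW1, hW2⟩ := hW t
  have h0 : ((star v * v + ∑ i, φ i 0 * (v * star v) * φ 0 i : dimDrop n) :
      C(unitInterval, MM n)) = star (v : C(unitInterval, MM n)) * v +
      ∑ i, (φ i 0 : C(unitInterval, MM n)) * ((v : C(unitInterval, MM n)) *
        star (v : C(unitInterval, MM n))) * (φ 0 i : C(unitInterval, MM n)) := by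
    push_cast
    rfl
  rw [h0]
  simp only [ContinuousMap.add_apply, ContinuousMap.mul_apply, ContinuousMap.star_apply,
    ContinuousMap.sum_apply, hV.ph, hV.vh]
  have hs : (Real.sqrt (t : ℝ)) ^ 2 = (t : ℝ) := Real.sq_sqrt t.2.1
  have key := sum_eq n (1 - (t : ℝ)) (Real.sqrt (t : ℝ))
  rw [hs] at key
  have h1 : star (vhf n t) * vhf n t =
      WW n t * (star (V0 n (Real.sqrt t)) * V0 n (Real.sqrt t)) * star (WW n t) := by
    unfold vhf
    simp only [star_mul, star_star]
    calc WW n t * (star (V0 n (Real.sqrt t)) * star (WW n t)) *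
          (WW n t * V0 n (Real.sqrt t) * star (WW n t)) =
        WW n t * star (V0 n (Real.sqrt t)) * (star (WW n t) * WW n t) *
          V0 n (Real.sqrt t) * star (WW n t) := by simp only [mul_assoc]
      _ = _ := by rw [hW2]; simp only [mul_assoc, one_mul, mul_one]
  have h2 : ∀ i, phf n i 0 t * (vhf n t * star (vhf n t)) * phf n 0 i t =
      WW n t * (D0 n i 0 (1 - t) * (V0 n (Real.sqrt t) * star (V0 n (Real.sqrt t))) *
        D0 n 0 i (1 - t)) * star (WW n t) := by
    intro i
    unfold vhf phf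
    simp only [star_mul, star_star]
    calc WW n t * D0 n i 0 (1 - t) * star (WW n t) *
          (WW n t * V0 n (Real.sqrt t) * star (WW n t) *
            (WW n t * (star (V0 n (Real.sqrt t)) * star (WW n t)))) *
          (WW n t * D0 n 0 i (1 - t) * star (WW n t)) =
        WW n t * D0 n i 0 (1 - t) * (star (WW n t) * WW n t) * V0 n (Real.sqrt t) *
          (star (WW n t) * WW n t) * star (V0 n (Real.sqrt t)) *
          (star (WW n t) * WW n t) * D0 n 0 i (1 - t) * star (WW n t) := by
            simp only [mul_assoc]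
      _ = _ := by rw [hW2]; simp only [mul_assoc, one_mul, mul_one]
  rw [h1, Finset.sum_congr rfl fun i _ => h2 i, ← Finset.sum_mul, ← Finset.mul_sum, ← add_mul,
    ← mul_add, key]
  rw [mul_smul_comm, mul_one, smul_mul_assoc, hW1]

end Pool.Agent.H308R2.ZS.T_CEN
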